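import Mathlib
set_option autoImplicit false

/-!
# First success on a multiple-access channel: definitions

* `z n`: the recursively defined value of the two-group partition scheme;
* `Alg`: algorithms, the same decision function for every user;
* `zstar n`: the infimum of the expected time of the first success over all algorithms.
-/

namespace Pool.Agent.H873MAC
open MeasureTheory

/-- The recursively defined numbers `z_n`: `z_1 = 1` and, for `n + 2 ≥ 2`, `z_{n+2}` is the infimum over
`0 < p < 1` of `(1 + ∑_{j=2}^{n+1} min (z_j, z_{n+2-j}) C(n+2, j) p^j (1-p)^{n+2-j})` divided by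
`1 - p^{n+2} - (1-p)^{n+2}` (below `j = i + 2`).  The value `z_0 = 0` is a dummy. -/
noncomputable def z : ℕ → ℝ
  | 0 => 0
  | 1 => 1
  | n + 2 => ⨅ p : Set.Ioo (0 : ℝ) 1,
      (1 + ∑ i : Fin n, min (z (i.1 + 2)) (z (n - i.1)) * ((n + 2).choose (i.1 + 2) : ℝ) *
        (p : ℝ) ^ (i.1 + 2) * (1 - (p : ℝ)) ^ (n - i.1)) /
      (1 - (p : ℝ) ^ (n + 2) - (1 - (p : ℝ)) ^ (n + 2))
termination_by n => n
decreasing_by
  · omega
  · omega

/-- An algorithm.  `h x l` is the decision (`true`: transmit) of a user with private randomness `x`
and history `l`, for every user the same function.  A history of length `t - 1` is used for the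
decision in slot `t`; it lists, most recent slot first, the pairs
(own decision, number of transmitters) of the slots before.  For every history the decision is a
Borel function of the private randomness. -/
structure Alg where
  h : ℝ → List (Bool × ℕ) → Bool
  meas : ∀ l, Measurable fun x => h x l

/-- The history of user `i` after `t` slots when the private random numbers of the `n` users are `u`. -/
def hist {n : ℕ} (A : Alg) (u : Fin n → ℝ) : ℕ → Fin n → List (Bool × ℕ)
  | 0, _ => []
  | t + 1, i => (A.h (u i) (hist A u t i),
      (Finset.univ.filter fun j => A.h (u j) (hist A u t j) = true).card) :: hist A u t i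

/-- The number of transmitters in slot `t + 1`, for `t = 0, 1, 2, …`. -/
def F {n : ℕ} (A : Alg) (u : Fin n → ℝ) (t : ℕ) : ℕ :=
  (Finset.univ.filter fun j => A.h (u j) (hist A u t j) = true).card

/-- The time of the first success: the least slot `t + 1` with exactly one transmitter, `∞` if there
is none. -/
noncomputable def Z {n : ℕ} (A : Alg) (u : Fin n → ℝ) : ENNReal :=
  ⨅ t : ℕ, ⨅ _ : F A u t = 1, ((t : ENNReal) + 1)

/-- The uniform distribution on `[0,1)`. -/
noncomputable def unif : Measure ℝ := volume.restrict (Set.Ico (0 : ℝ) 1)

/-- The expected time of the first success when the private random numbers of the `n` users are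
independent and uniform on `[0,1)`. -/
noncomputable def EZ (n : ℕ) (A : Alg) : ENNReal :=
  ∫⁻ u, Z A u ∂(Measure.pi fun _ : Fin n => unif)

/-- `z_n^*`, the infimum of the expected time of the first success over all algorithms. -/
noncomputable def zstar (n : ℕ) : ENNReal := ⨅ A : Alg, EZ n A

end Pool.Agent.H873MAC
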