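import Mathlib
set_option autoImplicit false

namespace Pool.Agent.H873MAC

/-- the polynomial inequality for a split into groups of two and three users -/
theorem ineq23 (v p q : ℝ) (hp0 : 0 ≤ p) (hp1 : p ≤ 1) (hq0 : 0 ≤ q) (hq1 : q ≤ 1)
    (hv : ∀ r : ℝ, 0 < r → r < 1 → v * (3 * r * (1 - r)) ≤ 1 + 3 * r ^ 2 * (1 - r)) :
    0 ≤ (1 - (2 * q * (1 - q) * (1 - p) ^ 3 + 3 * (1 - q) ^ 2 * p * (1 - p) ^ 2))
      - (v - 1) * (1 - (1 - 2 * q * (1 - q)) * (1 - 3 * p * (1 - p))) := by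
  have hv0 : v - 1 ≤ 788 / 1000 := by
    have := hv (412 / 1000) (by norm_num) (by norm_num)
    norm_num at this
    linarith
  have hA0 : 0 ≤ 2 * q * (1 - q) := by
    have : 0 ≤ 1 - q := by linarith
    positivity
  have hA1 : 2 * q * (1 - q) ≤ 1 := by nlinarith [sq_nonneg (2 * q - 1)]
  have hB0 : 0 ≤ 3 * p * (1 - p) := by
    have : 0 ≤ 1 - p := by linarith
    positivity
  have hB1 : 3 * p * (1 - p) ≤ 1 := by nlinarith [sq_nonneg (2 * p - 1)]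
  have hN : 0 ≤ 1 - (1 - 2 * q * (1 - q)) * (1 - 3 * p * (1 - p)) := by nlinarith
  -- replace v by its bound
  have hmono : (v - 1) * (1 - (1 - 2 * q * (1 - q)) * (1 - 3 * p * (1 - p))) ≤
      (788 / 1000) * (1 - (1 - 2 * q * (1 - q)) * (1 - 3 * p * (1 - p))) :=
    mul_le_mul_of_nonneg_right hv0 hN
  rcases le_total p (81 / 200) with h | h
  · -- small p
    have hK : 0 < 2 * ((1 - p) ^ 3 + 788 / 1000 * (1 - 3 * p * (1 - p))) - 3 * p * (1 - p) ^ 2 := by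
      have h1 : 0 ≤ 81 / 200 - p := by linarith
      nlinarith [mul_nonneg hp0 h1, mul_nonneg (mul_nonneg hp0 hp0) h1, mul_nonneg hp0 (mul_nonneg h1 h1),
        mul_nonneg h1 (mul_nonneg h1 h1), mul_nonneg hp0 (mul_nonneg hp0 hp0), mul_nonneg h1 h1]
    have hF : 0 ≤ (1 - 3 * p * (1 - p) ^ 2 - 788 / 1000 * (3 * p * (1 - p))) *
        (2 * ((1 - p) ^ 3 + 788 / 1000 * (1 - 3 * p * (1 - p))) - 3 * p * (1 - p) ^ 2) -
        ((1 - p) ^ 3 + 788 / 1000 * (1 - 3 * p * (1 - p)) - 3 * p * (1 - p) ^ 2) ^ 2 := by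
      have h1 : 0 ≤ 81 / 200 - p := by linarith
      have e : (1 - 3 * p * (1 - p) ^ 2 - 788 / 1000 * (3 * p * (1 - p))) *
        (2 * ((1 - p) ^ 3 + 788 / 1000 * (1 - 3 * p * (1 - p))) - 3 * p * (1 - p) ^ 2) -
        ((1 - p) ^ 3 + 788 / 1000 * (1 - 3 * p * (1 - p)) - 3 * p * (1 - p) ^ 2) ^ 2 =
        (8086528000000 / 94143178827) * (p ^ 0 * (81 / 200 - p) ^ 6) +
        (7533056000000 / 31381059609) * (p ^ 1 * (81 / 200 - p) ^ 5) +
        (8523970534400 / 31381059609) * (p ^ 2 * (81 / 200 - p) ^ 4) +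
        (15526034398208 / 94143178827) * (p ^ 3 * (81 / 200 - p) ^ 3) +
        (38750796363824 / 784526490225) * (p ^ 4 * (81 / 200 - p) ^ 2) +
        (2326870342508 / 784526490225) * (p ^ 5 * (81 / 200 - p) ^ 1) +
        (43712340577 / 2353579470675) * (p ^ 6 * (81 / 200 - p) ^ 0) := by ring
      rw [e]
      positivity
    have hG : 0 ≤ (1 - (2 * q * (1 - q) * (1 - p) ^ 3 + 3 * (1 - q) ^ 2 * p * (1 - p) ^ 2))
      - (788 / 1000) * (1 - (1 - 2 * q * (1 - q)) * (1 - 3 * p * (1 - p))) := by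
      have key : (2 * ((1 - p) ^ 3 + 788 / 1000 * (1 - 3 * p * (1 - p))) - 3 * p * (1 - p) ^ 2) *
          ((1 - (2 * q * (1 - q) * (1 - p) ^ 3 + 3 * (1 - q) ^ 2 * p * (1 - p) ^ 2))
      - (788 / 1000) * (1 - (1 - 2 * q * (1 - q)) * (1 - 3 * p * (1 - p)))) =
        (q * (2 * ((1 - p) ^ 3 + 788 / 1000 * (1 - 3 * p * (1 - p))) - 3 * p * (1 - p) ^ 2) -
          ((1 - p) ^ 3 + 788 / 1000 * (1 - 3 * p * (1 - p)) - 3 * p * (1 - p) ^ 2)) ^ 2 +
        ((1 - 3 * p * (1 - p) ^ 2 - 788 / 1000 * (3 * p * (1 - p))) *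
        (2 * ((1 - p) ^ 3 + 788 / 1000 * (1 - 3 * p * (1 - p))) - 3 * p * (1 - p) ^ 2) -
        ((1 - p) ^ 3 + 788 / 1000 * (1 - 3 * p * (1 - p)) - 3 * p * (1 - p) ^ 2) ^ 2) := by ring
      have : 0 ≤ (2 * ((1 - p) ^ 3 + 788 / 1000 * (1 - 3 * p * (1 - p))) - 3 * p * (1 - p) ^ 2) *
          ((1 - (2 * q * (1 - q) * (1 - p) ^ 3 + 3 * (1 - q) ^ 2 * p * (1 - p) ^ 2))
      - (788 / 1000) * (1 - (1 - 2 * q * (1 - q)) * (1 - 3 * p * (1 - p)))) := by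
        rw [key]; positivity
      exact nonneg_of_mul_nonneg_right this hK
    linarith
  · rcases le_total (301 / 500) p with h' | h'
    · -- large p
      have h1 : 0 ≤ p - 301 / 500 := by linarith
      have h2 : 0 ≤ 1 - p := by linarith
      have h3 : 0 ≤ 1 - q := by linarith
      have hG : 0 ≤ (1 - (2 * q * (1 - q) * (1 - p) ^ 3 + 3 * (1 - q) ^ 2 * p * (1 - p) ^ 2))
        - (788 / 1000) * (1 - (1 - 2 * q * (1 - q)) * (1 - 3 * p * (1 - p))) := by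
        have e : (1 - (2 * q * (1 - q) * (1 - p) ^ 3 + 3 * (1 - q) ^ 2 * p * (1 - p) ^ 2))
            - (788 / 1000) * (1 - (1 - 2 * q * (1 - q)) * (1 - 3 * p * (1 - p))) =
          (18439679 / 7880599) * (q ^ 0 * (1 - q) ^ 2 * ((p - 301 / 500) ^ 0 * (1 - p) ^ 3)) +
          (127188882 / 7880599) * (q ^ 0 * (1 - q) ^ 2 * ((p - 301 / 500) ^ 1 * (1 - p) ^ 2)) +
          (257391000 / 7880599) * (q ^ 0 * (1 - q) ^ 2 * ((p - 301 / 500) ^ 2 * (1 - p) ^ 1)) +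
          (125000000 / 7880599) * (q ^ 0 * (1 - q) ^ 2 * ((p - 301 / 500) ^ 3 * (1 - p) ^ 0)) +
          (37238802 / 7880599) * (q ^ 1 * (1 - q) ^ 1 * ((p - 301 / 500) ^ 0 * (1 - p) ^ 3)) +
          (159000000 / 7880599) * (q ^ 1 * (1 - q) ^ 1 * ((p - 301 / 500) ^ 1 * (1 - p) ^ 2)) +
          (159000000 / 7880599) * (q ^ 1 * (1 - q) ^ 1 * ((p - 301 / 500) ^ 2 * (1 - p) ^ 1)) +
          (53000000 / 7880599) * (q ^ 1 * (1 - q) ^ 1 * ((p - 301 / 500) ^ 3 * (1 - p) ^ 0)) +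
          (54199382 / 7880599) * (q ^ 2 * (1 - q) ^ 0 * ((p - 301 / 500) ^ 0 * (1 - p) ^ 3)) +
          (186590382 / 7880599) * (q ^ 2 * (1 - q) ^ 0 * ((p - 301 / 500) ^ 1 * (1 - p) ^ 2)) +
          (257391000 / 7880599) * (q ^ 2 * (1 - q) ^ 0 * ((p - 301 / 500) ^ 2 * (1 - p) ^ 1)) +
          (125000000 / 7880599) * (q ^ 2 * (1 - q) ^ 0 * ((p - 301 / 500) ^ 3 * (1 - p) ^ 0)) := by ring
        rw [e]
        positivity
      linarith
    · -- middle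
      have hE : 0 ≤ 1 - 3 * p * (1 - p) ^ 2 - (v - 1) * (3 * p * (1 - p)) := by
        have := hv p (by linarith) (by linarith)
        nlinarith
      have hR : 0 ≤ 3 * p * (1 - p) ^ 2 - (1 - p) ^ 3 - 788 / 1000 * (1 - 3 * p * (1 - p)) := by
        nlinarith [mul_nonneg (sub_nonneg.2 h) (sub_nonneg.2 h')]
      have hB2 : 0 ≤ 1 - 3 * p * (1 - p) := by linarith
      have hR' : 0 ≤ 3 * p * (1 - p) ^ 2 - (1 - p) ^ 3 - (v - 1) * (1 - 3 * p * (1 - p)) := by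
        have := mul_le_mul_of_nonneg_right hv0 hB2
        linarith
      have hS : 0 ≤ 3 * p * (1 - p) ^ 2 := by positivity
      have e : (1 - (2 * q * (1 - q) * (1 - p) ^ 3 + 3 * (1 - q) ^ 2 * p * (1 - p) ^ 2))
      - (v - 1) * (1 - (1 - 2 * q * (1 - q)) * (1 - 3 * p * (1 - p))) =
        (1 - 3 * p * (1 - p) ^ 2 - (v - 1) * (3 * p * (1 - p))) +
        (2 * q * (1 - q)) * (3 * p * (1 - p) ^ 2 - (1 - p) ^ 3 - (v - 1) * (1 - 3 * p * (1 - p))) +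
        q ^ 2 * (3 * p * (1 - p) ^ 2) := by ring
      rw [e]
      positivity

end Pool.Agent.H873MAC
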