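import Mathlib
import Pool.Agent.H873MAC.Ineq
import Pool.Agent.H873MAC.Defs
set_option autoImplicit false

namespace Pool.Agent.H873MAC

theorem den_pos (n : ℕ) (p : ℝ) (h0 : 0 < p) (h1 : p < 1) :
    0 < 1 - p ^ (n + 2) - (1 - p) ^ (n + 2) := by
  have key : ∀ x : ℝ, 0 < x → x < 1 → x ^ (n + 2) < x := by
    intro x hx0 hx1
    calc x ^ (n + 2) = x ^ (n + 1) * x := by ring
      _ < 1 * x := mul_lt_mul_of_pos_right (pow_lt_one₀ hx0.le hx1 (by omega)) hx0
      _ = x := one_mul x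
  have e1 := key p h0 h1
  have e2 := key (1 - p) (by linarith) (by linarith)
  linarith

theorem z_nonneg (n : ℕ) : 0 ≤ z n := by
  induction n using Nat.strong_induction_on with
  | _ n ih =>
    match n, ih with
    | 0, _ => simp [z]
    | 1, _ => simp [z]
    | n + 2, ih =>
      rw [z]
      apply Real.iInf_nonneg
      intro p
      apply div_nonneg
      · apply add_nonneg zero_le_one
        apply Finset.sum_nonneg
        intro i _
        have h1 := ih (i.1 + 2) (by omega)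
        have h2 := ih (n - i.1) (by omega)
        have h3 : 0 ≤ min (z (i.1 + 2)) (z (n - i.1)) := le_min h1 h2
        have h4 : 0 ≤ 1 - (p : ℝ) := by linarith [p.2.2]
        have h5 := p.2.1.le
        positivity
      · exact (den_pos n p p.2.1 p.2.2).le

theorem z_le (n : ℕ) (p : ℝ) (h0 : 0 < p) (h1 : p < 1) :
    z (n + 2) * (1 - p ^ (n + 2) - (1 - p) ^ (n + 2)) ≤
      1 + ∑ i : Fin n, min (z (i.1 + 2)) (z (n - i.1)) * ((n + 2).choose (i.1 + 2) : ℝ) *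
        p ^ (i.1 + 2) * (1 - p) ^ (n - i.1) := by
  rw [← le_div_iff₀ (den_pos n p h0 h1), z]
  refine ciInf_le (f := fun p : Set.Ioo (0 : ℝ) 1 =>
      (1 + ∑ i : Fin n, min (z (i.1 + 2)) (z (n - i.1)) * ((n + 2).choose (i.1 + 2) : ℝ) *
        (p : ℝ) ^ (i.1 + 2) * (1 - (p : ℝ)) ^ (n - i.1)) /
      (1 - (p : ℝ) ^ (n + 2) - (1 - (p : ℝ)) ^ (n + 2))) ⟨0, ?_⟩ ⟨p, h0, h1⟩
  rintro _ ⟨q, rfl⟩
  apply div_nonneg
  · apply add_nonneg zero_le_one
    apply Finset.sum_nonneg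
    intro i _
    have h3 : 0 ≤ min (z (i.1 + 2)) (z (n - i.1)) := le_min (z_nonneg _) (z_nonneg _)
    have h4 : 0 ≤ 1 - (q : ℝ) := by linarith [q.2.2]
    have h5 := q.2.1.le
    positivity
  · exact (den_pos n q q.2.1 q.2.2).le

/-- the value of a (2,3)-split -/
noncomputable def v : ℝ := min (z 2) (z 3)

theorem v_nonneg : 0 ≤ v := le_min (z_nonneg _) (z_nonneg _)

theorem v_bound (r : ℝ) (h0 : 0 < r) (h1 : r < 1) :
    v * (3 * r * (1 - r)) ≤ 1 + 3 * r ^ 2 * (1 - r) := by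
  have h := z_le 1 r h0 h1
  have hz1 : z 1 = 1 := by simp [z]
  simp only [Finset.univ_unique, Fin.default_eq_zero, Finset.sum_singleton, Fin.val_zero,
    zero_add, Nat.sub_zero, Nat.reduceAdd, pow_one, hz1] at h
  have hc : ((Nat.choose 3 2 : ℕ) : ℝ) = 3 := by norm_num [Nat.choose]
  rw [hc] at h
  have h2 : min (z 2) 1 ≤ 1 := min_le_right _ _
  have h3 : v ≤ z 3 := min_le_right _ _
  have h4 : 0 ≤ 3 * r * (1 - r) := by
    have : 0 ≤ 1 - r := by linarith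
    positivity
  have h5 : 0 ≤ 3 * r ^ 2 * (1 - r) := by
    have : 0 ≤ 1 - r := by linarith
    positivity
  have e : 1 - r ^ 3 - (1 - r) ^ 3 = 3 * r * (1 - r) := by ring
  rw [e] at h
  have h6 := mul_le_mul_of_nonneg_right h3 h4
  have h7 := mul_le_mul_of_nonneg_right h2 h5
  nlinarith

theorem z5_bound (p : ℝ) (h0 : 0 < p) (h1 : p < 1) :
    z 5 * (1 - p ^ 5 - (1 - p) ^ 5) ≤
      1 + 10 * v * p ^ 2 * (1 - p) ^ 3 + 10 * v * p ^ 3 * (1 - p) ^ 2 + 5 * p ^ 4 * (1 - p) := by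
  have h := z_le 3 p h0 h1
  have hz1 : z 1 = 1 := by simp [z]
  have hc1 : ((Nat.choose 5 2 : ℕ) : ℝ) = 10 := by norm_num [Nat.choose]
  have hc2 : ((Nat.choose 5 3 : ℕ) : ℝ) = 10 := by norm_num [Nat.choose]
  have hc3 : ((Nat.choose 5 4 : ℕ) : ℝ) = 5 := by norm_num [Nat.choose]
  rw [Fin.sum_univ_three] at h
  have e0 : ((0 : Fin 3) : ℕ) = 0 := rfl
  have e1 : ((1 : Fin 3) : ℕ) = 1 := rfl
  have e2 : ((2 : Fin 3) : ℕ) = 2 := rfl
  rw [e0, e1, e2] at h
  norm_num only [hc1, hc2, hc3] at h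
  have h2 : min (z 4) (z 1) ≤ 1 := by rw [hz1]; exact min_le_right _ _
  have h5 : 0 ≤ 5 * p ^ 4 * (1 - p) := by
    have : 0 ≤ 1 - p := by linarith
    positivity
  have h7 := mul_le_mul_of_nonneg_right h2 h5
  have hv' : min (z 3) (z 2) = v := by rw [min_comm]; rfl
  have hv'' : min (z 2) (z 3) = v := rfl
  simp only [hc1, hc2, hc3, hv', hv''] at h
  nlinarith

end Pool.Agent.H873MAC
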