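import Mathlib
set_option autoImplicit false

/-!
# First success on a multiple-access channel: a general lower bound
-/

namespace Pool.Agent.H873MAC.Gen

/-- `Lb n` is the infimum over `0 < p < 1` of
`(1 + ∑_{i=2}^{n-1} m_i C(n, i) p^i (1-p)^{n-i}) / (1 - p^n - (1-p)^n)`, where `m_{n-1} = 1` and
`m_i` is the golden ratio for the other `i`. -/
noncomputable def Lb (n : ℕ) : ℝ := ⨅ p : Set.Ioo (0 : ℝ) 1,
  (1 + ∑ i ∈ Finset.Icc 2 (n - 1), (if i = n - 1 then 1 else Real.goldenRatio) *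
    (n.choose i : ℝ) * (p : ℝ) ^ i * (1 - (p : ℝ)) ^ (n - i)) /
  (1 - (p : ℝ) ^ n - (1 - (p : ℝ)) ^ n)

end Pool.Agent.H873MAC.Gen
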