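import Mathlib
import Pool.Agent.H873MAC.Comb
import Pool.Agent.H873MAC.GenDefs
set_option autoImplicit false

namespace Pool.Agent.H873MAC.Gen
open Finset

theorem coef_nonneg (n i : ℕ) : 0 ≤ (if i = n - 1 then 1 else Real.goldenRatio : ℝ) := by
  split_ifs
  · exact zero_le_one
  · exact Real.goldenRatio_pos.le

theorem num_nonneg (n : ℕ) (t u : ℝ) (ht : 0 ≤ t) (hu : 0 ≤ u) :
    0 ≤ ∑ i ∈ Finset.Icc 2 (n - 1), (if i = n - 1 then 1 else Real.goldenRatio) *
    (n.choose i : ℝ) * t ^ i * u ^ (n - i) := by
  apply Finset.sum_nonneg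
  intro i _
  have := coef_nonneg n i
  positivity

theorem Lb_nonneg (n : ℕ) (hn : 2 ≤ n) : 0 ≤ Lb n := by
  obtain ⟨m, rfl⟩ : ∃ m, n = m + 2 := ⟨n - 2, by omega⟩
  apply Real.iInf_nonneg
  intro p
  apply div_nonneg
  · exact add_nonneg zero_le_one (num_nonneg _ _ _ p.2.1.le (by linarith [p.2.2]))
  · exact (den_pos m p p.2.1 p.2.2).le

theorem Lb_le (n : ℕ) (hn : 2 ≤ n) (p : ℝ) (h0 : 0 < p) (h1 : p < 1) :
    Lb n * (1 - p ^ n - (1 - p) ^ n) ≤
      1 + ∑ i ∈ Finset.Icc 2 (n - 1), (if i = n - 1 then 1 else Real.goldenRatio) *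
        (n.choose i : ℝ) * p ^ i * (1 - p) ^ (n - i) := by
  obtain ⟨m, rfl⟩ : ∃ m, n = m + 2 := ⟨n - 2, by omega⟩
  rw [← le_div_iff₀ (den_pos m p h0 h1), Lb]
  refine ciInf_le (f := fun p : Set.Ioo (0 : ℝ) 1 =>
      (1 + ∑ i ∈ Finset.Icc 2 (m + 2 - 1), (if i = m + 2 - 1 then 1 else Real.goldenRatio) *
        ((m + 2).choose i : ℝ) * (p : ℝ) ^ i * (1 - (p : ℝ)) ^ (m + 2 - i)) /
      (1 - (p : ℝ) ^ (m + 2) - (1 - (p : ℝ)) ^ (m + 2))) ⟨0, ?_⟩ ⟨p, h0, h1⟩
  rintro _ ⟨q, rfl⟩
  apply div_nonneg
  · exact add_nonneg zero_le_one (num_nonneg _ _ _ q.2.1.le (by linarith [q.2.2]))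
  · exact (den_pos m q q.2.1 q.2.2).le

section
variable {n : ℕ} {κ : Type*} [DecidableEq κ]

noncomputable def pot (L : ℝ) (f : Fin n → κ) : ℝ :=
  if ∃ i, ∀ j, f j = f i → j = i then 1 else if ∀ i j, f i = f j then L else Real.goldenRatio

theorem pot_congr {κ' : Type*} [DecidableEq κ'] (L : ℝ) (f : Fin n → κ) (g : Fin n → κ')
    (h : ∀ i j, f i = f j ↔ g i = g j) : pot L f = pot L g := by
  simp only [pot, h]

theorem pot_nonneg (L : ℝ) (hL : 0 ≤ L) (f : Fin n → κ) : 0 ≤ pot L f := by
  unfold pot
  split_ifs
  · exact zero_le_one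
  · exact hL
  · exact Real.goldenRatio_pos.le

theorem one_le_pot (L : ℝ) (f : Fin n → κ) (h : ¬ ∀ i j, f i = f j) : 1 ≤ pot L f := by
  unfold pot
  rw [if_neg h]
  split_ifs
  · exact le_rfl
  · exact Real.one_lt_goldenRatio.le

/-- number of transmitters -/
def nT (b : Fin n → Bool) : ℕ := (Finset.univ.filter fun i => b i = true).card

theorem sum_prod (g : Fin n → Bool → ℝ) :
    ∑ b : Fin n → Bool, ∏ i, g i (b i) = ∏ i, (g i true + g i false) := by
  have h := Finset.prod_univ_sum (fun _ : Fin n => (Finset.univ : Finset Bool)) g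
  rw [Fintype.piFinset_univ] at h
  simp only [Fintype.sum_bool] at h
  exact h.symm

theorem prod_lower (r : Fin n → ℝ) (hr : ∀ i, 0 ≤ r i) (s : Finset (Fin n)) :
    1 + ∑ i ∈ s, r i + ((∑ i ∈ s, r i) ^ 2 - ∑ i ∈ s, r i ^ 2) / 2 ≤ ∏ i ∈ s, (1 + r i) ∧
    0 ≤ (∑ i ∈ s, r i) ^ 2 - ∑ i ∈ s, r i ^ 2 := by
  induction s using Finset.induction_on with
  | empty => simp
  | insert a s ha ih =>
    obtain ⟨ih1, ih2⟩ := ih
    rw [Finset.sum_insert ha, Finset.sum_insert ha, Finset.prod_insert ha]
    have h1 := hr a
    have h2 : 0 ≤ ∑ i ∈ s, r i := Finset.sum_nonneg fun i _ => hr i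
    constructor
    · have h3 := mul_le_mul_of_nonneg_left ih1 (by linarith : (0:ℝ) ≤ 1 + r a)
      nlinarith [mul_nonneg h1 ih2]
    · nlinarith [mul_nonneg h1 h2]

theorem core (t u : Fin n → ℝ) (ht : ∀ i, 0 ≤ t i) (hu : ∀ i, 0 ≤ u i)
    (hp : ∀ i, ∃ j, j ≠ i ∧ t j = t i ∧ u j = u i) :
    ∑ i, ∏ j, (if j = i then t j else u j) ≤
      (2 - Real.goldenRatio) * ∏ i, (t i + u i) + (Real.goldenRatio - 1) * ∏ i, u i := by
  have hφ := Real.goldenRatio_sq
  have hφ1 := Real.one_lt_goldenRatio
  have hφ2 := Real.goldenRatio_lt_two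
  by_cases h : ∃ i, u i = 0
  · obtain ⟨i0, hi0⟩ := h
    obtain ⟨i1, h1, h2, h3⟩ := hp i0
    have hz : ∀ i ∈ (Finset.univ : Finset (Fin n)), ∏ j, (if j = i then t j else u j) = 0 := by
      intro i _
      by_cases hi : i = i0
      · apply Finset.prod_eq_zero (Finset.mem_univ i1)
        rw [if_neg (by rw [hi]; exact h1), h3, hi0]
      · apply Finset.prod_eq_zero (Finset.mem_univ i0)
        rw [if_neg (fun h => hi h.symm), hi0]
    rw [Finset.sum_eq_zero hz]
    have p1 : 0 ≤ ∏ i, (t i + u i) := Finset.prod_nonneg fun i _ => add_nonneg (ht i) (hu i)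
    have p2 : 0 ≤ ∏ i, u i := Finset.prod_nonneg fun i _ => hu i
    have := mul_nonneg (by linarith : 0 ≤ 2 - Real.goldenRatio) p1
    have := mul_nonneg (by linarith : 0 ≤ Real.goldenRatio - 1) p2
    linarith
  · push Not at h
    have hpos : ∀ i, 0 < u i := fun i => lt_of_le_of_ne (hu i) (h i).symm
    set r : Fin n → ℝ := fun i => t i / u i with hr
    have hr0 : ∀ i, 0 ≤ r i := fun i => div_nonneg (ht i) (hu i)
    have htr : ∀ i, t i = u i * r i := by
      intro i; simp only [hr]; field_simp [h i]
    set E := ∏ i, u i with hE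
    have hE0 : 0 < E := Finset.prod_pos fun i _ => hpos i
    have e1 : ∀ i, ∏ j, (if j = i then t j else u j) = E * r i := by
      intro i
      have : ∀ j, (if j = i then t j else u j) = u j * (if j = i then r j else 1) := by
        intro j
        split_ifs
        · exact htr j
        · ring
      simp only [this]
      rw [Finset.prod_mul_distrib, Finset.prod_ite_eq' Finset.univ i r]
      simp only [Finset.mem_univ, if_true, hE]
    have e2 : ∏ i, (t i + u i) = E * ∏ i, (1 + r i) := by
      rw [hE, ← Finset.prod_mul_distrib]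
      refine Finset.prod_congr rfl fun i _ => ?_
      rw [htr i]; ring
    simp only [e1]
    rw [e2, ← Finset.mul_sum]
    set Rr := ∑ i, r i with hR
    have hRR : 2 * ∑ i, r i ^ 2 ≤ Rr ^ 2 := by
      rw [sq, hR, Finset.sum_mul, Finset.mul_sum]
      apply Finset.sum_le_sum
      intro i _
      obtain ⟨j, hj1, hj2, hj3⟩ := hp i
      have hrj : r j = r i := by simp only [hr, hj2, hj3]
      have : r i + r j ≤ ∑ k, r k := by
        rw [← Finset.sum_pair hj1.symm]
        exact Finset.sum_le_univ_sum_of_nonneg hr0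
      rw [hrj] at this
      nlinarith [hr0 i]
    have hPl := (prod_lower r hr0 Finset.univ).1
    have hR0 : 0 ≤ Rr := Finset.sum_nonneg fun i _ => hr0 i
    have hP2 : (1 + Rr / 2) ^ 2 ≤ ∏ i, (1 + r i) := by nlinarith
    have hkey : Rr ≤ (2 - Real.goldenRatio) * (1 + Rr / 2) ^ 2 + (Real.goldenRatio - 1) := by
      have h2 : 0 < 2 - Real.goldenRatio := by linarith
      have h3 : 0 ≤ (2 - Real.goldenRatio) *
          ((2 - Real.goldenRatio) * (1 + Rr / 2) ^ 2 + (Real.goldenRatio - 1) - Rr) := by
        have e : (2 - Real.goldenRatio) *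
          ((2 - Real.goldenRatio) * (1 + Rr / 2) ^ 2 + (Real.goldenRatio - 1) - Rr) =
          ((2 - Real.goldenRatio) * (1 + Rr / 2) - 1) ^ 2 +
            (1 + Real.goldenRatio - Real.goldenRatio ^ 2) := by ring
        rw [e, hφ]
        have := sq_nonneg ((2 - Real.goldenRatio) * (1 + Rr / 2) - 1)
        linarith
      have := nonneg_of_mul_nonneg_right h3 h2
      linarith
    have hm := mul_le_mul_of_nonneg_left hP2 (by linarith : 0 ≤ 2 - Real.goldenRatio)
    have := mul_le_mul_of_nonneg_left (hkey.trans (by linarith :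
      (2 - Real.goldenRatio) * (1 + Rr / 2) ^ 2 + (Real.goldenRatio - 1) ≤
      (2 - Real.goldenRatio) * (∏ i, (1 + r i)) + (Real.goldenRatio - 1))) hE0.le
    linarith

theorem sum_nT (g : ℕ → ℝ) :
    ∑ b : Fin n → Bool, g (nT b) = ∑ m ∈ Finset.range (n + 1), (n.choose m : ℝ) * g m := by
  have h := Finset.sum_powerset_apply_card g (x := (Finset.univ : Finset (Fin n)))
  rw [Finset.card_univ, Fintype.card_fin, Finset.powerset_univ] at h
  simp only [nsmul_eq_mul] at h
  rw [← h]
  refine Finset.sum_nbij' (fun b => Finset.univ.filter (fun i => b i = true))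
    (fun s i => decide (i ∈ s)) ?_ ?_ ?_ ?_ ?_
  · intro b _; exact Finset.mem_univ _
  · intro s _; exact Finset.mem_univ _
  · intro b _; funext i; simp
  · intro s _; ext i; simp
  · intro b _; rfl

theorem e1_eq (w : (Fin n → Bool) → ℝ) :
    ∑ b : Fin n → Bool, (if nT b = 1 then w b else 0) = ∑ i, w (fun j => decide (j = i)) := by
  rw [← Finset.sum_filter]
  symm
  refine Finset.sum_bij (fun i _ => fun j => decide (j = i)) ?_ ?_ ?_ ?_
  · intro i _
    rw [Finset.mem_filter]
    refine ⟨Finset.mem_univ _, ?_⟩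
    unfold nT
    have : (Finset.univ.filter fun j : Fin n => decide (j = i) = true) = {i} := by
      ext j; simp
    rw [this, Finset.card_singleton]
  · intro i _ j _ h
    have := congrFun h i
    simpa using this
  · intro b hb
    rw [Finset.mem_filter] at hb
    obtain ⟨i, hi⟩ := Finset.card_eq_one.1 hb.2
    refine ⟨i, Finset.mem_univ _, ?_⟩
    funext j
    have := Finset.ext_iff.1 hi j
    simp only [Finset.mem_filter, Finset.mem_univ, true_and, Finset.mem_singleton] at this
    by_cases hj : j = i
    · have hb' : b j = true := this.2 hj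
      rw [hb']; simp [hj]
    · have hb' : b j = false := by
        rw [← Bool.not_eq_true]; exact fun h => hj (this.1 h)
      simp [hj, hb']
  · intro i _; rfl

noncomputable def rhs (L : ℝ) (f : Fin n → κ) (a : κ → Bool → ℝ) : ℝ :=
  ∑ b : Fin n → Bool, ((∏ i, a (f i) (b i)) +
    if nT b = 1 then 0 else pot L (fun i => (b i, f i)) * ∏ i, a (f i) (b i))

theorem step_non (L : ℝ) (f : Fin n → κ) (a : κ → Bool → ℝ) (ha : ∀ l b, 0 ≤ a l b)
    (h0 : ¬ ∃ i, ∀ j, f j = f i → j = i) (h1 : ¬ ∀ i j, f i = f j) :
    Real.goldenRatio * ∏ i, (a (f i) true + a (f i) false) ≤ rhs L f a := by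
  set w : (Fin n → Bool) → ℝ := fun b => ∏ i, a (f i) (b i) with hw
  have hw0 : ∀ b, 0 ≤ w b := fun b => Finset.prod_nonneg fun i _ => ha _ _
  have hφ1 := Real.one_lt_goldenRatio
  have hpt : ∀ b : Fin n → Bool, w b + w b - (if nT b = 1 then w b else 0) +
      (if b = (fun _ => false) then (Real.goldenRatio - 1) * w b else 0) ≤
      w b + if nT b = 1 then 0 else pot L (fun i => (b i, f i)) * w b := by
    intro b
    have hwb := hw0 b
    have hne : ¬ ∀ i j, ((b i, f i) : Bool × κ) = (b j, f j) := by
      intro h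
      apply h1
      intro i j
      exact (Prod.mk.inj (h i j)).2
    by_cases hb : b = fun _ => false
    · have hT : nT b ≠ 1 := by
        rw [hb]; simp [nT]
      have hpot : pot L (fun i => (b i, f i)) = Real.goldenRatio := by
        unfold pot
        rw [if_neg, if_neg hne]
        rintro ⟨i, hi⟩
        apply h0
        refine ⟨i, fun j hj => hi j ?_⟩
        show ((b j, f j) : Bool × κ) = (b i, f i)
        rw [hb, hj]
      rw [if_neg hT, if_pos hb, if_neg hT, hpot]
      linarith
    · rw [if_neg hb]
      by_cases hT : nT b = 1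
      · rw [if_pos hT, if_pos hT]; linarith
      · rw [if_neg hT, if_neg hT]
        have := mul_le_mul_of_nonneg_right (one_le_pot L (fun i => (b i, f i)) hne) hwb
        linarith
  have hs := Finset.sum_le_sum fun b (_ : b ∈ (Finset.univ : Finset (Fin n → Bool))) => hpt b
  have hW : ∑ b, w b = ∏ i, (a (f i) true + a (f i) false) := sum_prod fun i b => a (f i) b
  rw [Finset.sum_add_distrib, Finset.sum_sub_distrib, Finset.sum_add_distrib, hW, e1_eq w,
    Finset.sum_ite_eq' Finset.univ (fun _ => false) (fun b => (Real.goldenRatio - 1) * w b)] at hs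
  simp only [Finset.mem_univ, if_true] at hs
  have hc := core (fun i => a (f i) true) (fun i => a (f i) false) (fun i => ha _ _)
    (fun i => ha _ _) (by
      intro i
      by_contra hcon
      apply h0
      refine ⟨i, fun j hj => ?_⟩
      by_contra hji
      exact hcon ⟨j, hji, by simp only [hj], by simp only [hj]⟩)
  have hd : ∀ i, w (fun j => decide (j = i)) =
      ∏ j, (if j = i then a (f j) true else a (f j) false) := by
    intro i
    simp only [hw]
    refine Finset.prod_congr rfl fun j _ => ?_
    by_cases hj : j = i <;> simp [hj]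
  simp only [hd] at hs
  have hf0 : w (fun _ => false) = ∏ i, a (f i) false := rfl
  rw [hf0] at hs
  unfold rhs
  have e : ∑ b : Fin n → Bool, ((∏ i, a (f i) (b i)) +
    if nT b = 1 then 0 else pot L (fun i => (b i, f i)) * ∏ i, a (f i) (b i)) =
    ∑ b : Fin n → Bool, (w b + if nT b = 1 then 0 else pot L (fun i => (b i, f i)) * w b) := rfl
  rw [e]
  linarith

theorem step_fresh (hn : 3 ≤ n) (f : Fin n → κ) (a : κ → Bool → ℝ) (ha : ∀ l b, 0 ≤ a l b)
    (h1 : ∀ i j, f i = f j) :
    Lb n * ∏ i, (a (f i) true + a (f i) false) ≤ rhs (Lb n) f a := by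
  have hL := Lb_nonneg n (by omega)
  set i0 : Fin n := ⟨0, by omega⟩ with hi0
  have hf' : ∀ i, f i = f i0 := fun i => h1 i i0
  set t := a (f i0) true with ht
  set u := a (f i0) false with hu
  have ht0 : 0 ≤ t := ha _ _
  have hu0 : 0 ≤ u := ha _ _
  have hnT : ∀ b : Fin n → Bool, nT b ≤ n := by
    intro b
    have := Finset.card_filter_le (Finset.univ : Finset (Fin n)) (fun i => b i = true)
    rw [Finset.card_univ, Fintype.card_fin] at this
    exact this
  have hneg : ∀ b : Fin n → Bool, (Finset.univ.filter fun i => ¬ b i = true).card = n - nT b := by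
    intro b
    have := Finset.card_filter_add_card_filter_not (s := (Finset.univ : Finset (Fin n)))
      (fun i => b i = true)
    rw [Finset.card_univ, Fintype.card_fin] at this
    unfold nT
    omega
  have hw : ∀ b : Fin n → Bool, ∏ i, a (f i) (b i) = t ^ nT b * u ^ (n - nT b) := by
    intro b
    have e : ∀ i, a (f i) (b i) = if b i = true then t else u := by
      intro i
      rw [hf' i]
      by_cases hb : b i = true
      · rw [if_pos hb, hb]
      · rw [if_neg hb]
        have : b i = false := by simpa using hb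
        rw [this]
    simp only [e]
    rw [Finset.prod_ite, Finset.prod_const, Finset.prod_const, hneg b]
    rfl
  set cf : ℕ → ℝ := fun k => if k = 0 ∨ k = n then Lb n else if k = 1 then 0 else
    if k = n - 1 then 1 else Real.goldenRatio with hcf
  have hpt : ∀ b : Fin n → Bool, cf (nT b) * (t ^ nT b * u ^ (n - nT b)) ≤
      if nT b = 1 then 0 else pot (Lb n) (fun i => (b i, f i)) * ∏ i, a (f i) (b i) := by
    intro b
    have hw0 : 0 ≤ t ^ nT b * u ^ (n - nT b) := by positivity
    by_cases hT : nT b = 1
    · rw [if_pos hT]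
      have : cf (nT b) = 0 := by
        simp only [hcf]
        rw [if_neg (by omega), if_pos hT]
      rw [this, zero_mul]
    rw [if_neg hT, hw b]
    apply mul_le_mul_of_nonneg_right _ hw0
    by_cases hall : ∀ i j, b i = b j
    · -- all decisions equal
      have hpot : pot (Lb n) (fun i => (b i, f i)) = Lb n := by
        unfold pot
        rw [if_neg, if_pos]
        · intro i j; exact Prod.ext (hall i j) (h1 i j)
        · rintro ⟨i, hi⟩
          have e0 := hi ⟨0, by omega⟩ (Prod.ext (hall _ _) (h1 _ _))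
          have e1 := hi ⟨1, by omega⟩ (Prod.ext (hall _ _) (h1 _ _))
          rw [← e0, Fin.mk.injEq] at e1
          omega
      rw [hpot]
      have : nT b = 0 ∨ nT b = n := by
        by_cases hb : b i0 = true
        · right
          unfold nT
          rw [Finset.filter_true_of_mem (fun i _ => by rw [hall i i0]; exact hb), Finset.card_univ,
            Fintype.card_fin]
        · left
          unfold nT
          rw [Finset.filter_false_of_mem (fun i _ => by rw [hall i i0]; exact hb), Finset.card_empty]
      simp only [hcf]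
      rw [if_pos this]
    · have hne : ¬ ∀ i j, ((b i, f i) : Bool × κ) = (b j, f j) := by
        intro h
        apply hall
        intro i j
        exact (Prod.mk.inj (h i j)).1
      have h0n : ¬ (nT b = 0 ∨ nT b = n) := by
        rintro (h | h)
        · apply hall
          have : ∀ i, b i = false := by
            intro i
            by_contra hbi
            have hmem : i ∈ Finset.univ.filter fun i => b i = true := by
              rw [Finset.mem_filter]; exact ⟨Finset.mem_univ _, by simpa using hbi⟩
            have := Finset.card_pos.2 ⟨i, hmem⟩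
            unfold nT at h
            omega
          intro i j; rw [this i, this j]
        · apply hall
          have hc := hneg b
          rw [h, Nat.sub_self, Finset.card_eq_zero] at hc
          have : ∀ i, b i = true := by
            intro i
            by_contra hbi
            have hmem : i ∈ Finset.univ.filter fun i => ¬ b i = true := by
              rw [Finset.mem_filter]; exact ⟨Finset.mem_univ _, hbi⟩
            rw [hc] at hmem
            exact absurd hmem (Finset.notMem_empty i)
          intro i j; rw [this i, this j]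
      simp only [hcf]
      rw [if_neg h0n, if_neg hT]
      by_cases hk : nT b = n - 1
      · rw [if_pos hk]; exact one_le_pot _ _ hne
      · rw [if_neg hk]
        unfold pot
        rw [if_neg, if_neg hne]
        rintro ⟨i, hi⟩
        have hn' := hnT b
        push Not at h0n
        by_cases hb : b i = true
        · have hc : 1 < (Finset.univ.filter fun i => b i = true).card := by
            have : nT b ≠ 0 := h0n.1
            unfold nT at *
            omega
          obtain ⟨j, hj, hji⟩ := Finset.exists_mem_ne hc i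
          rw [Finset.mem_filter] at hj
          exact hji (hi j (Prod.ext (hj.2.trans hb.symm) (h1 j i)))
        · have hc : 1 < (Finset.univ.filter fun i => ¬ b i = true).card := by
            rw [hneg b]
            have := h0n.2
            omega
          obtain ⟨j, hj, hji⟩ := Finset.exists_mem_ne hc i
          rw [Finset.mem_filter] at hj
          have e1 : b j = false := by simpa using hj.2
          have e2 : b i = false := by simpa using hb
          exact hji (hi j (Prod.ext (e1.trans e2.symm) (h1 j i)))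
  have hW : ∑ b : Fin n → Bool, ∏ i, a (f i) (b i) = (t + u) ^ n := by
    rw [sum_prod fun i b => a (f i) b]
    simp only [hf']
    rw [Finset.prod_const, Finset.card_univ, Fintype.card_fin]
  have hprod : ∏ i, (a (f i) true + a (f i) false) = (t + u) ^ n := by
    simp only [hf']
    rw [Finset.prod_const, Finset.card_univ, Fintype.card_fin]
  have hs := Finset.sum_le_sum fun b (_ : b ∈ (Finset.univ : Finset (Fin n → Bool))) => hpt b
  rw [sum_nT (fun k => cf k * (t ^ k * u ^ (n - k)))] at hs
  have hsplit : ∑ m ∈ Finset.range (n + 1), (n.choose m : ℝ) * (cf m * (t ^ m * u ^ (n - m))) =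
      Lb n * u ^ n + Lb n * t ^ n + ∑ i ∈ Finset.Icc 2 (n - 1),
        (if i = n - 1 then 1 else Real.goldenRatio) * (n.choose i : ℝ) * t ^ i * u ^ (n - i) := by
    have hI : Finset.range (n + 1) = insert 0 (insert 1 (insert n (Finset.Icc 2 (n - 1)))) := by
      ext m
      simp only [Finset.mem_range, Finset.mem_insert, Finset.mem_Icc]
      omega
    rw [hI, Finset.sum_insert, Finset.sum_insert, Finset.sum_insert]
    · have c0 : cf 0 = Lb n := if_pos (Or.inl rfl)
      have c1 : cf 1 = 0 := (if_neg (by omega)).trans (if_pos rfl)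
      have cn : cf n = Lb n := if_pos (Or.inr rfl)
      rw [c0, c1, cn]
      have hrest : ∑ m ∈ Finset.Icc 2 (n - 1), (n.choose m : ℝ) * (cf m * (t ^ m * u ^ (n - m))) =
          ∑ i ∈ Finset.Icc 2 (n - 1),
        (if i = n - 1 then 1 else Real.goldenRatio) * (n.choose i : ℝ) * t ^ i * u ^ (n - i) := by
        refine Finset.sum_congr rfl fun i hi => ?_
        rw [Finset.mem_Icc] at hi
        have : cf i = if i = n - 1 then 1 else Real.goldenRatio := by
          simp only [hcf]
          rw [if_neg (by omega), if_neg (by omega)]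
        rw [this]; ring
      rw [hrest]
      simp only [Nat.choose_zero_right, Nat.choose_self, Nat.cast_one, pow_zero, Nat.sub_zero,
        Nat.sub_self]
      ring
    · simp only [Finset.mem_Icc]; omega
    · simp only [Finset.mem_insert, Finset.mem_Icc]; omega
    · simp only [Finset.mem_insert, Finset.mem_Icc]; omega
  rw [hsplit] at hs
  have key : Lb n * (t + u) ^ n ≤ (t + u) ^ n + (Lb n * u ^ n + Lb n * t ^ n +
      ∑ i ∈ Finset.Icc 2 (n - 1),
        (if i = n - 1 then 1 else Real.goldenRatio) * (n.choose i : ℝ) * t ^ i * u ^ (n - i)) := by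
    have hN := num_nonneg n t u ht0 hu0
    rcases ht0.eq_or_lt with h | h
    · have ht0' : t = 0 := h.symm
      have e1 : (t + u) ^ n = u ^ n := by rw [ht0', zero_add]
      have e2 : t ^ n = 0 := by rw [ht0', zero_pow (by omega)]
      rw [e1, e2]
      have : 0 ≤ u ^ n := by positivity
      linarith
    rcases hu0.eq_or_lt with h' | h'
    · have hu0' : u = 0 := h'.symm
      have e1 : (t + u) ^ n = t ^ n := by rw [hu0', add_zero]
      have e2 : u ^ n = 0 := by rw [hu0', zero_pow (by omega)]
      rw [e1, e2]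
      have : 0 ≤ t ^ n := by positivity
      linarith
    have hb := Lb_le n (by omega) (t / (t + u)) (by positivity)
      (by rw [div_lt_one (by positivity)]; linarith)
    have e : 1 - t / (t + u) = u / (t + u) := by field_simp; ring
    rw [e] at hb
    have hst : 0 < (t + u) ^ n := by positivity
    have h2 := mul_le_mul_of_nonneg_right hb hst.le
    have hne : (t + u) ^ n ≠ 0 := hst.ne'
    have l1 : Lb n * (1 - (t / (t + u)) ^ n - (u / (t + u)) ^ n) * (t + u) ^ n =
        Lb n * ((t + u) ^ n - t ^ n - u ^ n) := by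
      rw [div_pow, div_pow]
      field_simp
    have l2 : (1 + ∑ i ∈ Finset.Icc 2 (n - 1), (if i = n - 1 then 1 else Real.goldenRatio) *
        (n.choose i : ℝ) * (t / (t + u)) ^ i * (u / (t + u)) ^ (n - i)) * (t + u) ^ n =
        (t + u) ^ n + ∑ i ∈ Finset.Icc 2 (n - 1),
        (if i = n - 1 then 1 else Real.goldenRatio) * (n.choose i : ℝ) * t ^ i * u ^ (n - i) := by
      rw [add_mul, one_mul, Finset.sum_mul]
      congr 1
      refine Finset.sum_congr rfl fun i hi => ?_
      rw [Finset.mem_Icc] at hi
      have hp : (t + u) ^ n = (t + u) ^ i * (t + u) ^ (n - i) := by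
        rw [← pow_add]; congr 1; omega
      rw [hp, div_pow, div_pow]
      have g1 : (t + u) ^ i ≠ 0 := by positivity
      have g2 : (t + u) ^ (n - i) ≠ 0 := by positivity
      field_simp
    rw [l1, l2] at h2
    linarith
  rw [hprod]
  unfold rhs
  rw [Finset.sum_add_distrib, hW]
  linarith

theorem oneStep (hn : 3 ≤ n) (f : Fin n → κ) (a : κ → Bool → ℝ) (ha : ∀ l b, 0 ≤ a l b) :
    pot (Lb n) f * ∏ i, (a (f i) true + a (f i) false) ≤ rhs (Lb n) f a := by
  by_cases h0 : ∃ i, ∀ j, f j = f i → j = i
  · have hp : pot (Lb n) f = 1 := by unfold pot; rw [if_pos h0]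
    rw [hp, one_mul, ← sum_prod (fun i b => a (f i) b)]
    unfold rhs
    apply Finset.sum_le_sum
    intro b _
    have hp : 0 ≤ ∏ i, a (f i) (b i) := Finset.prod_nonneg fun i _ => ha _ _
    split_ifs
    · simp
    · have := mul_nonneg (pot_nonneg (Lb n) (Lb_nonneg n (by omega)) (fun i => (b i, f i))) hp
      linarith
  by_cases h1 : ∀ i j, f i = f j
  · have hp : pot (Lb n) f = Lb n := by unfold pot; rw [if_neg h0, if_pos h1]
    rw [hp]
    exact step_fresh hn f a ha h1
  · have hp : pot (Lb n) f = Real.goldenRatio := by unfold pot; rw [if_neg h0, if_neg h1]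
    rw [hp]
    exact step_non (Lb n) f a ha h0 h1

end

end Pool.Agent.H873MAC.Gen
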