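import Mathlib
import Pool.Agent.H873MAC.GenStep
set_option autoImplicit false

namespace Pool.Agent.H873MAC.Gen
open Pool.Agent.H873MAC
variable {n : ℕ}
open MeasureTheory

instance : IsProbabilityMeasure unif := ⟨by simp [unif]⟩

/-- the histories determined by the list of all decisions (most recent first) -/
def hs : List (Fin n → Bool) → Fin n → List (Bool × ℕ)
  | [], _ => []
  | b :: L, i => (b i, nT b) :: hs L i

def nb (A : Alg) (u : Fin n → ℝ) (L : List (Fin n → Bool)) : Fin n → Bool :=
  fun j => A.h (u j) (hs L j)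

def path (A : Alg) (u : Fin n → ℝ) : ℕ → List (Fin n → Bool)
  | 0 => []
  | t + 1 => nb A u (path A u t) :: path A u t

theorem hist_eq (A : Alg) (u : Fin n → ℝ) (t : ℕ) : hist A u t = hs (path A u t) := by
  induction t with
  | zero => rfl
  | succ t ih =>
    funext i
    simp only [hist, path, hs, ih]
    rfl

theorem F_eq (A : Alg) (u : Fin n → ℝ) (t : ℕ) : F A u t = nT (nb A u (path A u t)) := by
  unfold F
  rw [hist_eq]
  rfl

/-- truncated remaining time -/
noncomputable def k (C : ENNReal) (A : Alg) (u : Fin n → ℝ) : ℕ → List (Fin n → Bool) → ENNReal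
  | 0, _ => C
  | T + 1, L => 1 + if nT (nb A u L) = 1 then 0 else k C A u T (nb A u L :: L)

/-- `k` is at most the remaining time plus `C` if there is no success within `T` slots -/
theorem k_le (C : ENNReal) (A : Alg) (u : Fin n → ℝ) (T s : ℕ) :
    (∀ t, s ≤ t → t < s + T → nT (nb A u (path A u t)) ≠ 1) ∧
      k C A u T (path A u s) = T + C ∨
    ∃ t, s ≤ t ∧ t < s + T ∧ nT (nb A u (path A u t)) = 1 ∧
      (∀ t', s ≤ t' → t' < t → nT (nb A u (path A u t')) ≠ 1) ∧
      k C A u T (path A u s) = ((t - s : ℕ) : ENNReal) + 1 := by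
  induction T generalizing s with
  | zero =>
    left
    refine ⟨fun t h1 h2 => absurd h2 (by omega), by simp [k]⟩
  | succ T ih =>
    by_cases h : nT (nb A u (path A u s)) = 1
    · right
      refine ⟨s, le_rfl, by omega, h, fun t' h1 h2 => absurd h2 (by omega), ?_⟩
      simp [k, h]
    · have e : k C A u (T + 1) (path A u s) = 1 + k C A u T (path A u (s + 1)) := by
        simp [k, h, path]
      rcases ih (s + 1) with ⟨h1, h2⟩ | ⟨t, h1, h2, h3, h4, h5⟩
      · left
        constructor
        · intro t ht1 ht2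
          rcases ht1.eq_or_lt with h' | h'
          · rw [← h']; exact h
          · exact h1 t h' (by omega)
        · rw [e, h2]; push_cast; ring
      · right
        refine ⟨t, by omega, by omega, h3, ?_, ?_⟩
        · intro t' ht1 ht2
          rcases ht1.eq_or_lt with h' | h'
          · rw [← h']; exact h
          · exact h4 t' h' (by omega)
        · rw [e, h5]
          have : t - s = (t - (s + 1)) + 1 := by omega
          rw [this]; push_cast; ring

theorem k_le_Z (C : ENNReal) (A : Alg) (u : Fin n → ℝ) (T : ℕ) (hT : 0 < T) :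
    k C A u T [] ≤ (1 + C / T) * Z A u := by
  have hT0 : (T : ENNReal) ≠ 0 := by exact_mod_cast hT.ne'
  have hTt : (T : ENNReal) ≠ ⊤ := ENNReal.natCast_ne_top T
  rcases k_le C A u T 0 with ⟨h1, h2⟩ | ⟨t, h1, h2, h3, h4, h5⟩
  · have h2' : k C A u T [] = T + C := h2
    rw [h2']
    have hZ : (T : ENNReal) ≤ Z A u := by
      unfold Z
      refine le_iInf fun t => le_iInf fun ht => ?_
      rw [F_eq] at ht
      have : T ≤ t := by
        by_contra hcon
        exact h1 t (Nat.zero_le _) (by omega) ht
      calc (T : ENNReal) ≤ t := by exact_mod_cast this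
        _ ≤ t + 1 := le_self_add
    calc (T : ENNReal) + C = (1 + C / T) * T := by
          rw [add_mul, one_mul, ENNReal.div_mul_cancel hT0 hTt]
      _ ≤ (1 + C / T) * Z A u := by gcongr
  · have h5' : k C A u T [] = ((t - 0 : ℕ) : ENNReal) + 1 := h5
    rw [h5', Nat.sub_zero]
    have hZ : (t : ENNReal) + 1 ≤ Z A u := by
      unfold Z
      refine le_iInf fun t' => le_iInf fun ht => ?_
      rw [F_eq] at ht
      have : t ≤ t' := by
        by_contra hcon
        exact h4 t' (Nat.zero_le _) (by omega) ht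
      gcongr
    calc (t : ENNReal) + 1 ≤ 1 * Z A u := by rw [one_mul]; exact hZ
      _ ≤ (1 + C / T) * Z A u := by gcongr; exact le_self_add

/-- the set of private random numbers consistent with a history -/
def S (A : Alg) : List (Bool × ℕ) → Set ℝ
  | [] => Set.univ
  | (b, _) :: l => S A l ∩ {x | A.h x l = b}

theorem S_meas (A : Alg) (l : List (Bool × ℕ)) : MeasurableSet (S A l) := by
  induction l with
  | nil => exact MeasurableSet.univ
  | cons c l ih =>
    obtain ⟨b, m⟩ := c
    exact ih.inter ((A.meas l) (measurableSet_singleton b))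

def R (A : Alg) (L : List (Fin n → Bool)) : Set (Fin n → ℝ) :=
  Set.pi Set.univ fun i => S A (hs L i)

theorem R_meas (A : Alg) (L : List (Fin n → Bool)) : MeasurableSet (R A L) :=
  MeasurableSet.univ_pi fun i => S_meas A _

theorem mem_R_cons (A : Alg) (L : List (Fin n → Bool)) (b : Fin n → Bool) (u : Fin n → ℝ) :
    u ∈ R A (b :: L) ↔ u ∈ R A L ∧ nb A u L = b := by
  simp only [R, Set.mem_pi, Set.mem_univ, forall_true_left, hs, S, Set.mem_inter_iff,
    Set.mem_setOf_eq, nb, funext_iff]
  exact forall_and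

theorem R_eq_iUnion (A : Alg) (L : List (Fin n → Bool)) :
    R A L = ⋃ b : Fin n → Bool, R A (b :: L) := by
  ext u
  simp only [Set.mem_iUnion, mem_R_cons]
  constructor
  · intro h; exact ⟨_, h, rfl⟩
  · rintro ⟨b, h, _⟩; exact h

theorem R_disj (A : Alg) (L : List (Fin n → Bool)) :
    Pairwise (Function.onFun Disjoint fun b : Fin n → Bool => R A (b :: L)) := by
  intro b b' hb
  rw [Function.onFun, Set.disjoint_left]
  intro u h1 h2
  rw [mem_R_cons] at h1 h2
  exact hb (h1.2.symm.trans h2.2)

noncomputable abbrev PP (n : ℕ) : Measure (Fin n → ℝ) := Measure.pi fun _ : Fin n => unif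

noncomputable def a (A : Alg) (l : List (Bool × ℕ)) (b : Bool) : ℝ :=
  unif.real (S A l ∩ {x | A.h x l = b})

theorem a_nonneg (A : Alg) (l : List (Bool × ℕ)) (b : Bool) : 0 ≤ a A l b := measureReal_nonneg

theorem a_add (A : Alg) (l : List (Bool × ℕ)) : a A l true + a A l false = unif.real (S A l) := by
  unfold a
  rw [← measureReal_union]
  · congr 1
    ext x
    simp only [Set.mem_union, Set.mem_inter_iff, Set.mem_setOf_eq]
    cases A.h x l <;> simp
  · rw [Set.disjoint_left]
    rintro x ⟨_, h1⟩ ⟨_, h2⟩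
    simp only [Set.mem_setOf_eq] at h1 h2
    rw [h1] at h2
    exact absurd h2 (by simp)
  · exact (S_meas A l).inter ((A.meas l) (measurableSet_singleton false))

noncomputable def W (A : Alg) (L : List (Fin n → Bool)) : ℝ := ∏ i, unif.real (S A (hs L i))

theorem W_nonneg (A : Alg) (L : List (Fin n → Bool)) : 0 ≤ W A L :=
  Finset.prod_nonneg fun _ _ => measureReal_nonneg

theorem P_R (A : Alg) (L : List (Fin n → Bool)) : PP n (R A L) = ENNReal.ofReal (W A L) := by
  unfold R W PP
  rw [Measure.pi_pi, ENNReal.ofReal_prod_of_nonneg (fun _ _ => measureReal_nonneg)]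
  refine Finset.prod_congr rfl fun i _ => ?_
  rw [ofReal_measureReal]

theorem W_step (hn : 3 ≤ n) (A : Alg) (L : List (Fin n → Bool)) :
    pot (Lb n) (hs L) * W A L ≤ ∑ b : Fin n → Bool, (W A (b :: L) +
      if nT b = 1 then 0 else pot (Lb n) (hs (b :: L)) * W A (b :: L)) := by
  have h := oneStep hn (hs L) (a A) (a_nonneg A)
  unfold rhs at h
  have e1 : ∏ i, (a A (hs L i) true + a A (hs L i) false) = W A L := by
    unfold W
    refine Finset.prod_congr rfl fun i _ => a_add A _
  have e2 : ∀ b : Fin n → Bool, ∏ i, a A (hs L i) (b i) = W A (b :: L) := by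
    intro b
    unfold W
    rfl
  have e3 : ∀ b : Fin n → Bool,
      pot (Lb n) (fun i => (b i, hs L i)) = pot (Lb n) (hs (b :: L)) := by
    intro b
    apply pot_congr
    intro i j
    simp [hs]
  simp only [e1, e2, e3] at h
  exact h

theorem main_ind (hn : 3 ≤ n) (C : ENNReal)
    (hC : ∀ f : Fin n → List (Bool × ℕ), ENNReal.ofReal (pot (Lb n) f) ≤ C) (A : Alg) (T : ℕ)
    (L : List (Fin n → Bool)) :
    ENNReal.ofReal (pot (Lb n) (hs L) * W A L) ≤ ∫⁻ u in R A L, k C A u T L ∂(PP n) := by
  have hp0 : ∀ f : Fin n → List (Bool × ℕ), 0 ≤ pot (Lb n) f :=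
    fun f => pot_nonneg _ (Lb_nonneg n (by omega)) f
  induction T generalizing L with
  | zero =>
    simp only [k, lintegral_const, Measure.restrict_apply_univ]
    rw [P_R, ENNReal.ofReal_mul (hp0 _)]
    gcongr
    exact hC _
  | succ T ih =>
    have h1 : ∫⁻ u in R A L, k C A u (T + 1) L ∂(PP n) =
        ∑ b : Fin n → Bool, ∫⁻ u in R A (b :: L), k C A u (T + 1) L ∂(PP n) := by
      conv_lhs => rw [R_eq_iUnion]
      rw [lintegral_iUnion (fun b => R_meas A (b :: L)) (R_disj A L), tsum_fintype]
    rw [h1]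
    have h2 : ∀ b : Fin n → Bool, ENNReal.ofReal (W A (b :: L) +
        if nT b = 1 then 0 else pot (Lb n) (hs (b :: L)) * W A (b :: L)) ≤
        ∫⁻ u in R A (b :: L), k C A u (T + 1) L ∂(PP n) := by
      intro b
      have h3 : ∫⁻ u in R A (b :: L), k C A u (T + 1) L ∂(PP n) =
          ∫⁻ u in R A (b :: L), (1 + if nT b = 1 then 0 else k C A u T (b :: L)) ∂(PP n) := by
        apply setLIntegral_congr_fun (R_meas A _)
        intro u hu
        rw [mem_R_cons] at hu
        simp only [k, hu.2]
      rw [h3, lintegral_add_left measurable_const, lintegral_const, Measure.restrict_apply_univ,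
        one_mul, P_R]
      split_ifs with hb
      · simp
      · rw [ENNReal.ofReal_add (W_nonneg _ _) (mul_nonneg (hp0 _) (W_nonneg _ _))]
        gcongr
        exact ih (b :: L)
    calc ENNReal.ofReal (pot (Lb n) (hs L) * W A L)
        ≤ ENNReal.ofReal (∑ b : Fin n → Bool, (W A (b :: L) +
          if nT b = 1 then 0 else pot (Lb n) (hs (b :: L)) * W A (b :: L))) :=
          ENNReal.ofReal_le_ofReal (W_step hn A L)
      _ = ∑ b : Fin n → Bool, ENNReal.ofReal (W A (b :: L) +
          if nT b = 1 then 0 else pot (Lb n) (hs (b :: L)) * W A (b :: L)) := by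
          apply ENNReal.ofReal_sum_of_nonneg
          intro b _
          apply add_nonneg (W_nonneg _ _)
          split_ifs
          · exact le_rfl
          · exact mul_nonneg (hp0 _) (W_nonneg _ _)
      _ ≤ _ := Finset.sum_le_sum fun b _ => h2 b

theorem lower (hn : 3 ≤ n) (A : Alg) : ENNReal.ofReal (Lb n) ≤ EZ n A := by
  set C : ENNReal := ENNReal.ofReal (1 + Lb n + Real.goldenRatio) with hCdef
  have hC : ∀ f : Fin n → List (Bool × ℕ), ENNReal.ofReal (pot (Lb n) f) ≤ C := by
    intro f
    apply ENNReal.ofReal_le_ofReal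
    have h1 := Lb_nonneg n (by omega)
    have h2 := Real.goldenRatio_pos
    unfold pot
    split_ifs <;> linarith
  have hW : W (n := n) A [] = 1 := by
    simp [W, hs, S]
  have hpot : pot (Lb n) (hs (n := n) []) = Lb n := by
    unfold pot
    rw [if_neg, if_pos]
    · intro i j; rfl
    · rintro ⟨i, hi⟩
      have h0 := hi ⟨0, by omega⟩ rfl
      have h1 := hi ⟨1, by omega⟩ rfl
      rw [← h0, Fin.mk.injEq] at h1
      omega
  have hstep : ∀ T : ℕ, 0 < T → ENNReal.ofReal (Lb n) ≤ (1 + C / T) * EZ n A := by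
    intro T hT
    have h := main_ind hn C hC A T []
    rw [hpot, hW, mul_one] at h
    have hR : R (n := n) A [] = Set.univ := by
      simp [R, hs, S]
    rw [hR, Measure.restrict_univ] at h
    refine h.trans ?_
    unfold EZ
    rw [← lintegral_const_mul']
    · exact lintegral_mono fun u => k_le_Z C A u T hT
    · have : (T : ENNReal) ≠ 0 := by exact_mod_cast hT.ne'
      exact ENNReal.add_ne_top.2 ⟨by simp, (ENNReal.div_lt_top ENNReal.ofReal_ne_top this).ne⟩
  by_cases htop : EZ n A = ⊤
  · rw [htop]; exact le_top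
  · have hlim : Filter.Tendsto (fun T : ℕ => (1 + C / (T : ENNReal)) * EZ n A) Filter.atTop
        (nhds ((1 + 0) * EZ n A)) := by
      apply ENNReal.Tendsto.mul_const
      · apply Filter.Tendsto.add tendsto_const_nhds
        exact ENNReal.Tendsto.const_div ENNReal.tendsto_nat_nhds_top (by right; exact ENNReal.ofReal_ne_top) |>.trans (by simp)
      · right; exact htop
    rw [add_zero, one_mul] at hlim
    exact ge_of_tendsto hlim (Filter.eventually_atTop.2 ⟨1, fun T hT => hstep T hT⟩)

end Pool.Agent.H873MAC.Gen
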