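import Mathlib
import Pool.Agent.H873MAC.Comb
set_option autoImplicit false

namespace Pool.Agent.H873MAC

section
variable {κ : Type*} [DecidableEq κ]

/-- code of the partition of the five users into classes: `0` = some class is a singleton,
`1` = all users in one class, `2` = otherwise (classes of sizes two and three) -/
def code (f : Fin 5 → κ) : Fin 3 :=
  if ∃ i, ∀ j, f j = f i → j = i then 0 else if ∀ i j, f i = f j then 1 else 2

theorem code_congr {κ' : Type*} [DecidableEq κ'] (f : Fin 5 → κ) (g : Fin 5 → κ')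
    (h : ∀ i j, f i = f j ↔ g i = g j) : code f = code g := by
  simp only [code, h]

theorem code_perm (f : Fin 5 → κ) (σ : Equiv.Perm (Fin 5)) : code (fun i => f (σ i)) = code f := by
  have h1 : (∃ i, ∀ j, f (σ j) = f (σ i) → j = i) ↔ (∃ i, ∀ j, f j = f i → j = i) := by
    constructor
    · rintro ⟨i, hi⟩
      refine ⟨σ i, fun j hj => ?_⟩
      have := hi (σ.symm j) (by simpa using hj)
      rw [← this]; simp
    · rintro ⟨i, hi⟩
      refine ⟨σ.symm i, fun j hj => ?_⟩
      have := hi (σ j) (by simpa using hj)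
      rw [← this]; simp
  have h2 : (∀ i j, f (σ i) = f (σ j)) ↔ (∀ i j, f i = f j) := by
    constructor
    · intro h i j
      simpa using h (σ.symm i) (σ.symm j)
    · intro h i j
      exact h _ _
  simp only [code, h1, h2]

/-- weights -/
noncomputable def wt (k : Fin 3) : ℝ := ![1, z 5, v] k

theorem wt0 : wt 0 = 1 := by simp [wt]
theorem wt1 : wt 1 = z 5 := by simp [wt]
theorem wt2 : wt 2 = v := by simp [wt]

theorem wt_nonneg (k : Fin 3) : 0 ≤ wt k := by
  fin_cases k
  · simp [wt]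
  · simpa [wt] using z_nonneg 5
  · simpa [wt] using v_nonneg

def vecEquiv : (Bool × Bool × Bool × Bool × Bool) ≃ (Fin 5 → Bool) where
  toFun x := ![x.1, x.2.1, x.2.2.1, x.2.2.2.1, x.2.2.2.2]
  invFun b := (b 0, b 1, b 2, b 3, b 4)
  left_inv := by rintro ⟨a, b, c, d, e⟩; rfl
  right_inv := by
    intro b
    funext i
    fin_cases i <;> rfl

theorem sum5 (g : (Fin 5 → Bool) → ℝ) :
    ∑ b, g b = ∑ b0 : Bool, ∑ b1 : Bool, ∑ b2 : Bool, ∑ b3 : Bool, ∑ b4 : Bool,
      g ![b0, b1, b2, b3, b4] := by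
  rw [← Equiv.sum_comp vecEquiv g, Fintype.sum_prod_type]
  refine Finset.sum_congr rfl fun b0 _ => ?_
  rw [Fintype.sum_prod_type]
  refine Finset.sum_congr rfl fun b1 _ => ?_
  rw [Fintype.sum_prod_type]
  refine Finset.sum_congr rfl fun b2 _ => ?_
  rw [Fintype.sum_prod_type]
  rfl

theorem sum_prod (g : Fin 5 → Bool → ℝ) :
    ∑ b : Fin 5 → Bool, ∏ i, g i (b i) = ∏ i, (g i true + g i false) := by
  rw [sum5]
  simp only [Fin.prod_univ_five, Fintype.sum_bool, Matrix.cons_val_zero, Matrix.cons_val_one,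
    Matrix.cons_val]
  ring

/-- number of transmitters -/
def nT (b : Fin 5 → Bool) : ℕ := (Finset.univ.filter fun i => b i = true).card

/-- the right-hand side -/
noncomputable def rhs (f : Fin 5 → κ) (a : κ → Bool → ℝ) : ℝ :=
  ∑ b : Fin 5 → Bool, ((∏ i, a (f i) (b i)) +
    if nT b = 1 then 0 else wt (code fun i => (b i, f i)) * ∏ i, a (f i) (b i))

theorem rhs_perm (f : Fin 5 → κ) (a : κ → Bool → ℝ) (σ : Equiv.Perm (Fin 5)) :
    rhs (fun i => f (σ i)) a = rhs f a := by
  unfold rhs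
  rw [← Equiv.sum_comp (Equiv.arrowCongr σ.symm (Equiv.refl Bool))]
  refine Finset.sum_congr rfl fun b _ => ?_
  have e1 : ∀ i, (Equiv.arrowCongr σ.symm (Equiv.refl Bool)) b i = b (σ i) := by
    intro i; simp [Equiv.arrowCongr]
  simp only [e1]
  have e2 : ∏ i, a (f (σ i)) (b (σ i)) = ∏ i, a (f i) (b i) :=
    Equiv.prod_comp σ (fun i => a (f i) (b i))
  have e3 : code (fun i => (b (σ i), f (σ i))) = code (fun i => (b i, f i)) :=
    code_perm (fun i => (b i, f i)) σ
  have e4 : nT ((Equiv.arrowCongr σ.symm (Equiv.refl Bool)) b) = nT b := by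
    unfold nT
    simp only [e1, Finset.card_filter]
    exact Equiv.sum_comp σ (fun i => if b i = true then 1 else 0)
  rw [e2, e3, e4]

theorem nT_eq (b : Fin 5 → Bool) : nT b = (if b 0 = true then 1 else 0) +
    (if b 1 = true then 1 else 0) + (if b 2 = true then 1 else 0) +
    (if b 3 = true then 1 else 0) + (if b 4 = true then 1 else 0) := by
  rw [nT, Finset.card_filter, Fin.sum_univ_five]

theorem code_one (b : Fin 5 → Bool) : code (fun i => (b i, ())) =
    if nT b = 1 ∨ nT b = 4 then 0 else if nT b = 0 ∨ nT b = 5 then 1 else 2 := by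
  revert b; decide

theorem code_two (b : Fin 5 → Bool) :
    code (fun i => (b i, (![true, true, false, false, false] : Fin 5 → Bool) i)) =
    if b 0 = b 1 ∧ b 2 = b 3 ∧ b 3 = b 4 then 2 else 0 := by
  revert b; decide

theorem step_one (f : Fin 5 → κ) (a : κ → Bool → ℝ) (ha : ∀ l b, 0 ≤ a l b)
    (hf : ∀ i j, f i = f j) :
    z 5 * ∏ i, (a (f i) true + a (f i) false) ≤ rhs f a := by
  have hc : ∀ b : Fin 5 → Bool, code (fun i => (b i, f i)) = code (fun i => (b i, ())) := by
    intro b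
    apply code_congr
    intro i j
    simp [hf i j]
  have hf' : ∀ i, f i = f 0 := fun i => hf i 0
  unfold rhs
  simp only [hc, code_one]
  simp only [hf']
  set s := a (f 0) true with hs
  set t := a (f 0) false with ht
  have hs0 : 0 ≤ s := ha _ _
  have ht0 : 0 ≤ t := ha _ _
  have key : z 5 * (s + t) ^ 5 ≤ (s + t) ^ 5 + z 5 * s ^ 5 + z 5 * t ^ 5 +
      10 * v * s ^ 2 * t ^ 3 + 10 * v * s ^ 3 * t ^ 2 + 5 * s ^ 4 * t := by
    have hz5 := z_nonneg 5
    have hv := v_nonneg
    rcases hs0.eq_or_lt with h | h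
    · rw [← h]
      have : 0 ≤ t ^ 5 := by positivity
      nlinarith
    rcases ht0.eq_or_lt with h' | h'
    · rw [← h']
      have : 0 ≤ s ^ 5 := by positivity
      nlinarith
    have hb := z5_bound (s / (s + t)) (by positivity) (by rw [div_lt_one (by positivity)]; linarith)
    have e : 1 - s / (s + t) = t / (s + t) := by field_simp; ring
    rw [e] at hb
    have hst : 0 < (s + t) ^ 5 := by positivity
    have h2 := mul_le_mul_of_nonneg_right hb hst.le
    have l1 : z 5 * (1 - (s / (s + t)) ^ 5 - (t / (s + t)) ^ 5) * (s + t) ^ 5 =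
        z 5 * ((s + t) ^ 5 - s ^ 5 - t ^ 5) := by
      field_simp
    have l2 : (1 + 10 * v * (s / (s + t)) ^ 2 * (t / (s + t)) ^ 3 +
        10 * v * (s / (s + t)) ^ 3 * (t / (s + t)) ^ 2 + 5 * (s / (s + t)) ^ 4 * (t / (s + t))) *
        (s + t) ^ 5 = (s + t) ^ 5 + 10 * v * s ^ 2 * t ^ 3 + 10 * v * s ^ 3 * t ^ 2 +
          5 * s ^ 4 * t := by
      field_simp
    rw [l1, l2] at h2
    nlinarith
  rw [sum5]
  simp only [nT_eq, Fin.prod_univ_five, Fintype.sum_bool, Matrix.cons_val_zero, Matrix.cons_val_one,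
    Matrix.cons_val]
  norm_num
  simp only [wt0, wt1, wt2]
  nlinarith [key]

theorem step_two (x y : κ) (hxy : x ≠ y) (a : κ → Bool → ℝ) (ha : ∀ l b, 0 ≤ a l b) :
    v * ((a x true + a x false) ^ 2 * (a y true + a y false) ^ 3) ≤
      rhs (fun i => (![x, x, y, y, y] : Fin 5 → κ) i) a := by
  have hc : ∀ b : Fin 5 → Bool, code (fun i => (b i, (![x, x, y, y, y] : Fin 5 → κ) i)) =
      code (fun i => (b i, (![true, true, false, false, false] : Fin 5 → Bool) i)) := by
    intro b
    apply code_congr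
    intro i j
    have : (![x, x, y, y, y] : Fin 5 → κ) i = (![x, x, y, y, y] : Fin 5 → κ) j ↔
      (![true, true, false, false, false] : Fin 5 → Bool) i =
      (![true, true, false, false, false] : Fin 5 → Bool) j := by
      fin_cases i <;> fin_cases j <;> simp [hxy, hxy.symm]
    simp only [Prod.mk.injEq, this]
  unfold rhs
  simp only [hc, code_two]
  set s := a x true with hs
  set t := a x false with ht
  set s' := a y true with hs'
  set t' := a y false with ht'
  have hs0 : 0 ≤ s := ha _ _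
  have ht0 : 0 ≤ t := ha _ _
  have hs0' : 0 ≤ s' := ha _ _
  have ht0' : 0 ≤ t' := ha _ _
  have key : v * ((s + t) ^ 2 * (s' + t') ^ 3) ≤ (s + t) ^ 2 * (s' + t') ^ 3 +
      v * ((s ^ 2 + t ^ 2) * (s' ^ 3 + t' ^ 3)) +
      ((s + t) ^ 2 * (s' + t') ^ 3 - (s ^ 2 + t ^ 2) * (s' ^ 3 + t' ^ 3) -
        (2 * s * t * t' ^ 3 + 3 * t ^ 2 * s' * t' ^ 2)) := by
    rcases (add_nonneg hs0 ht0).eq_or_lt with h | h
    · have h1 : s = 0 := by linarith
      have h2 : t = 0 := by linarith
      rw [h1, h2]; simp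
    rcases (add_nonneg hs0' ht0').eq_or_lt with h' | h'
    · have h1 : s' = 0 := by linarith
      have h2 : t' = 0 := by linarith
      rw [h1, h2]; simp
    have hb := ineq23 v (s' / (s' + t')) (s / (s + t)) (by positivity)
      (by rw [div_le_one h']; linarith) (by positivity) (by rw [div_le_one h]; linarith) v_bound
    have e : 1 - s / (s + t) = t / (s + t) := by field_simp; ring
    have e' : 1 - s' / (s' + t') = t' / (s' + t') := by field_simp; ring
    rw [e, e'] at hb
    have hpos : 0 < (s + t) ^ 2 * (s' + t') ^ 3 := by positivity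
    have h2 := mul_nonneg hb hpos.le
    have l1 : ((1 - (2 * (s / (s + t)) * (t / (s + t)) * (t' / (s' + t')) ^ 3 +
        3 * (t / (s + t)) ^ 2 * (s' / (s' + t')) * (t' / (s' + t')) ^ 2)) -
        (v - 1) * (1 - (1 - 2 * (s / (s + t)) * (t / (s + t))) *
          (1 - 3 * (s' / (s' + t')) * (t' / (s' + t'))))) * ((s + t) ^ 2 * (s' + t') ^ 3) =
        ((s + t) ^ 2 * (s' + t') ^ 3 - (2 * s * t * t' ^ 3 + 3 * t ^ 2 * s' * t' ^ 2)) -
        (v - 1) * ((s + t) ^ 2 * (s' + t') ^ 3 - ((s + t) ^ 2 - 2 * s * t) *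
          ((s' + t') ^ 3 - 3 * s' * t' * (s' + t'))) := by
      field_simp
    rw [l1] at h2
    nlinarith [h2]
  rw [sum5]
  simp only [nT_eq, Fin.prod_univ_five, Fintype.sum_bool, Matrix.cons_val_zero, Matrix.cons_val_one,
    Matrix.cons_val]
  norm_num
  simp only [wt0, wt1, wt2]
  nlinarith [key]

/-- table of representatives of the ten splittings into two and three users -/
def tab : Fin 10 → Fin 5 → Fin 5 :=
  ![![0, 1, 2, 3, 4], ![0, 2, 1, 3, 4], ![0, 3, 1, 2, 4], ![0, 4, 1, 2, 3], ![1, 2, 0, 3, 4],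
    ![1, 3, 0, 2, 4], ![1, 4, 0, 2, 3], ![2, 3, 0, 1, 4], ![2, 4, 0, 1, 3], ![3, 4, 0, 1, 2]]

theorem tab_bij (k : Fin 10) : Function.Bijective (tab k) := by
  revert k; decide

theorem exists_tab : ∀ e0 e1 e2 e3 e4 : Fin 5,
    (¬ ∃ i, ∀ j, (![e0, e1, e2, e3, e4] : Fin 5 → Fin 5) j =
      (![e0, e1, e2, e3, e4] : Fin 5 → Fin 5) i → j = i) →
    (¬ ∀ i j, (![e0, e1, e2, e3, e4] : Fin 5 → Fin 5) i =
      (![e0, e1, e2, e3, e4] : Fin 5 → Fin 5) j) →
    ∃ k : Fin 10, (![e0, e1, e2, e3, e4] : Fin 5 → Fin 5) (tab k 0) =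
        (![e0, e1, e2, e3, e4] : Fin 5 → Fin 5) (tab k 1) ∧
      (![e0, e1, e2, e3, e4] : Fin 5 → Fin 5) (tab k 2) =
        (![e0, e1, e2, e3, e4] : Fin 5 → Fin 5) (tab k 3) ∧
      (![e0, e1, e2, e3, e4] : Fin 5 → Fin 5) (tab k 3) =
        (![e0, e1, e2, e3, e4] : Fin 5 → Fin 5) (tab k 4) ∧
      (![e0, e1, e2, e3, e4] : Fin 5 → Fin 5) (tab k 0) ≠
        (![e0, e1, e2, e3, e4] : Fin 5 → Fin 5) (tab k 2) := by
  decide +kernel

theorem oneStep (f : Fin 5 → κ) (a : κ → Bool → ℝ) (ha : ∀ l b, 0 ≤ a l b) :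
    wt (code f) * ∏ i, (a (f i) true + a (f i) false) ≤ rhs f a := by
  by_cases h0 : ∃ i, ∀ j, f j = f i → j = i
  · have hcode : code f = 0 := by simp only [code, h0, if_true]
    rw [hcode]
    have hw : wt 0 = 1 := by simp [wt]
    rw [hw, one_mul, ← sum_prod (fun i b => a (f i) b)]
    unfold rhs
    apply Finset.sum_le_sum
    intro b _
    have hp : 0 ≤ ∏ i, a (f i) (b i) := Finset.prod_nonneg fun i _ => ha _ _
    split_ifs
    · simp
    · have := mul_nonneg (wt_nonneg (code fun i => (b i, f i))) hp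
      linarith
  by_cases h1 : ∀ i j, f i = f j
  · have hcode : code f = 1 := by unfold code; rw [if_neg h0, if_pos h1]
    rw [hcode]
    exact step_one f a ha h1
  · have hcode : code f = 2 := by unfold code; rw [if_neg h0, if_neg h1]
    rw [hcode]
    have hw : wt 2 = v := by simp [wt]
    rw [hw]
    set e : Fin 5 → Fin 5 := fun i => Function.invFun f (f i) with he
    have hfe : ∀ i, f (e i) = f i := fun i => Function.invFun_eq ⟨i, rfl⟩
    have hee : ∀ i j, e i = e j ↔ f i = f j := by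
      intro i j
      constructor
      · intro h
        rw [← hfe i, ← hfe j, h]
      · intro h
        simp only [he, h]
    have hev : (![e 0, e 1, e 2, e 3, e 4] : Fin 5 → Fin 5) = e := by
      funext i; fin_cases i <;> rfl
    have hk := exists_tab (e 0) (e 1) (e 2) (e 3) (e 4)
    rw [hev] at hk
    simp only [hee, ne_eq] at hk
    obtain ⟨k, hk1, hk2, hk3, hk4⟩ := hk h0 h1
    set σ : Equiv.Perm (Fin 5) := Equiv.ofBijective (tab k) (tab_bij k) with hσ
    have hσi : ∀ i, σ i = tab k i := fun i => rfl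
    rw [← rhs_perm f a σ, ← Equiv.prod_comp σ (fun i => (a (f i) true + a (f i) false))]
    have hfσ : (fun i => f (σ i)) = fun i => (![f (tab k 0), f (tab k 0), f (tab k 2), f (tab k 2),
        f (tab k 2)] : Fin 5 → κ) i := by
      funext i
      fin_cases i
      · simp [hσi]
      · simp [hσi, hk1]
      · simp [hσi]
      · simp [hσi, hk2]
      · simp [hσi, hk2, hk3]
    have hprod : ∏ i, (a (f (σ i)) true + a (f (σ i)) false) =
        (a (f (tab k 0)) true + a (f (tab k 0)) false) ^ 2 *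
        (a (f (tab k 2)) true + a (f (tab k 2)) false) ^ 3 := by
      have : ∀ i, f (σ i) = (![f (tab k 0), f (tab k 0), f (tab k 2), f (tab k 2),
        f (tab k 2)] : Fin 5 → κ) i := fun i => congrFun hfσ i
      simp only [this, Fin.prod_univ_five]
      simp only [Matrix.cons_val_zero, Matrix.cons_val_one, Matrix.cons_val]
      ring
    rw [hfσ, hprod]
    exact step_two _ _ hk4 a ha

end

end Pool.Agent.H873MAC
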